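import Pool.Agent.V11182.FanWedge

/-! # A smooth `X`-EPG fan that is not endpoint-homogeneous

For `X = {0, 1/3, 2/3}` there is a smooth `X`-EPG fan in the plane that is not
endpoint-homogeneous: the wedge, at the tops, of two smooth `X`-EPG fans such that the second
derived set of the set of endpoints meets the blades of the first one only in the top, and meets
every blade of the second one in a point different from the top.

The definitions (`IsArc`, `IsSubcontinuum`, `HereditarilyUnicoherent`, `IsRamification`, `IsFan`,
`IsEndpoint`, `IsSeg`, `IsSmooth`, `IsEPG`) are in `Pool/Agent/H545R3/FanDefs.lean`. -/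

set_option autoImplicit false

open Set Topology Filter Pool.Agent.H545R3.Fan

namespace Pool.Agent.Results.MP_0958cc_gt.NotEndpointHomogeneous

/-- The set `{0, 1/3, 2/3} ⊆ [0,1]`. -/
def thirds : Set unitInterval := {t | (t : ℝ) = 0 ∨ (t : ℝ) = 1 / 3 ∨ (t : ℝ) = 2 / 3}

lemma thirds_eq : thirds = Z3 := by
  ext t
  constructor
  · rintro (h | h | h)
    · exact Or.inl (Subtype.ext h)
    · exact Or.inr (Or.inl (Subtype.ext h))
    · exact Or.inr (Or.inr (Subtype.ext h))
  · rintro (h | h | h)
    · left; rw [h]
    · right; left; rw [h]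
    · right; right; rw [h]

/-- There is a smooth `{0, 1/3, 2/3}`-EPG fan `F` (a subspace of the plane, with top `t`) with two
endpoints `e`, `e'` such that no homeomorphism of `F` onto itself sends `e` to `e'`. -/
theorem result : ∃ (F : Set (ℝ × ℝ)) (t : F), IsFan F t ∧ IsSmooth t ∧ IsEPG t thirds ∧
    ∃ e e' : F, IsEndpoint e ∧ IsEndpoint e' ∧ ∀ h : F ≃ₜ F, h e ≠ e' := by
  rw [thirds_eq]
  exact Pool.Agent.V11182.FanWedge.main.2

end Pool.Agent.Results.MP_0958cc_gt.NotEndpointHomogeneous
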